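import Pool.Agent.N299.PX.Stm

/-!
# Project PX (helper299), part NC (helper451): weakly purely infinite algebras have no characters
-/

set_option autoImplicit false

open Filter

namespace Pool.Agent.N451.PX

open Pool.Agent.N299
open Pool.Agent.N299.PX.Pub Pool.Agent.N299.PX

lemma cont {A : Type} [NonUnitalCStarAlgebra A] (φ : A →⋆ₙₐ[ℂ] ℂ) : Continuous φ := by
  refine AddMonoidHomClass.continuous_of_bound φ 1 fun x => ?_
  rw [one_mul]
  exact NonUnitalStarAlgHom.norm_apply_le φ x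

theorem entry {A : Type} [NonUnitalCStarAlgebra A] (φ : A →⋆ₙₐ[ℂ] ℂ) (a : A) (n : ℕ)
    (X : Matrix (Fin 2 × Fin n) (Fin 2 × Fin n) A) (p p' : Fin 2 × Fin n) :
    φ ((Matrix.conjTranspose X * Matrix.diagonal (fun p : Fin 2 × Fin n => if p.1 = 0 then a else 0)
      * X) p p') = φ a * (Matrix.conjTranspose (Matrix.of fun (l : Fin n) (p : Fin 2 × Fin n) =>
        φ (X (0, l) p)) * Matrix.of fun (l : Fin n) (p : Fin 2 × Fin n) => φ (X (0, l) p)) p p' := by
  rw [Matrix.mul_apply, Matrix.mul_apply, map_sum, Finset.mul_sum, Fintype.sum_prod_type,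
    Fin.sum_univ_two]
  have h1 : ∑ l : Fin n, φ ((Matrix.conjTranspose X * Matrix.diagonal
      (fun p : Fin 2 × Fin n => if p.1 = 0 then a else 0)) p (1, l) * X (1, l) p') = 0 := by
    refine Finset.sum_eq_zero fun l _ => ?_
    rw [Matrix.mul_diagonal]
    simp
  rw [h1, add_zero]
  refine Finset.sum_congr rfl fun l _ => ?_
  rw [Matrix.mul_diagonal]
  simp only [if_true, map_mul, Matrix.conjTranspose_apply, Matrix.of_apply, map_star]
  ring

theorem t_NC (hRK : S_RK) : S_NC := by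
  intro A _ hW hφ
  obtain ⟨φ, a₀, ha₀⟩ := hφ
  obtain ⟨n, hn, hX⟩ := hW
  obtain ⟨a, ha⟩ : ∃ a, a = star a₀ * a₀ := ⟨_, rfl⟩
  have ht' : φ a = star (φ a₀) * φ a₀ := by rw [ha, map_mul, map_star]
  have ht0 : φ a ≠ 0 := by
    rw [ht']
    exact mul_ne_zero (star_ne_zero.mpr ha₀) ha₀
  have ha0 : a ≠ 0 := by
    intro h
    apply ht0
    rw [h, map_zero]
  obtain ⟨X, hX⟩ := hX a ⟨a₀, ha⟩ ha0
  have hc : Continuous φ := cont φ
  apply hRK n hn (fun k => Matrix.of fun (l : Fin n) (p : Fin 2 × Fin n) => φ (X k (0, l) p))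
  refine tendsto_pi_nhds.mpr fun p => tendsto_pi_nhds.mpr fun p' => ?_
  have h1 : Tendsto (fun k => (Matrix.conjTranspose (X k) *
      Matrix.diagonal (fun p : Fin 2 × Fin n => if p.1 = 0 then a else 0) * X k) p p') atTop
      (nhds (Matrix.diagonal (fun _ : Fin 2 × Fin n => a) p p')) :=
    (tendsto_pi_nhds.mp ((tendsto_pi_nhds.mp hX) p)) p'
  have h2 := ((hc.tendsto _).comp h1).const_mul (φ a)⁻¹
  have h4 : (φ a)⁻¹ * φ (Matrix.diagonal (fun _ : Fin 2 × Fin n => a) p p') =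
      (1 : Matrix (Fin 2 × Fin n) (Fin 2 × Fin n) ℂ) p p' := by
    by_cases h : p = p'
    · subst h
      rw [Matrix.diagonal_apply_eq, Matrix.one_apply_eq, inv_mul_cancel₀ ht0]
    · rw [Matrix.diagonal_apply_ne _ h, Matrix.one_apply_ne h, map_zero, mul_zero]
  rw [h4] at h2
  refine h2.congr fun k => ?_
  rw [Function.comp_apply, entry φ a n (X k) p p', ← mul_assoc, inv_mul_cancel₀ ht0, one_mul]

end Pool.Agent.N451.PX
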